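import Pool.Agent.P.MP_009630_co.Even
import Pool.Agent.P.MP_009630_co.Odd

set_option autoImplicit false

namespace Pool.Agent.Results.MP_009630_co.NegOneAll

open Pool.Agent.P.MP_009630_co

/-- All admissible quadruples `(n, c, d, l)` with `d = -1`: a `(0,1)`-matrix of order `n` with
line sums `c` and `A ^ 2 = d I + l J` exists exactly when `n` is odd and `n - 2 c + l ≠ 1`. -/
theorem result (n : ℕ) (c d l : ℤ) (hn : 1 < n) (hd : d = -1) (hc : c ^ 2 = d + l * n)
    (h1 : -l < d) (h2 : d ≤ c - l) :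
    (∃ A : Matrix (Fin n) (Fin n) ℤ, (∀ i j, A i j = 0 ∨ A i j = 1) ∧
      (∀ i, ∑ j, A i j = c) ∧ (∀ j, ∑ i, A i j = c) ∧
      A ^ 2 = d • (1 : Matrix (Fin n) (Fin n) ℤ) + l • Matrix.of (fun _ _ => (1 : ℤ))) ↔
      Odd n ∧ (n : ℤ) - 2 * c + l ≠ 1 := by
  subst hd
  rw [← final_of sol_Ia sol_Ib sol_even n c l hn (by linear_combination hc) (by omega)
    (by omega)]
  simp only [Sol, sq]

end Pool.Agent.Results.MP_009630_co.NegOneAll
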