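import Pool.Agent.P.MP_009630_co.Dn.Alg
import Pool.Agent.P.MP_009630_co.Dn.Odd
import Pool.Agent.P.MP_009630_co.Dn.Cl
import Pool.Agent.P.MP_009630_co.Dn.OddW
import Pool.Agent.P.MP_009630_co.Dn.Row
import Pool.Agent.P.MP_009630_co.Dn.Glue
import Pool.Agent.P.MP_009630_co.Dn.Pz
import Pool.Agent.P.MP_009630_co.Dn.Block
import Pool.Agent.P.MP_009630_co.Dn.Norm
import Pool.Agent.P.MP_009630_co.Dn.Star
import Pool.Agent.P.MP_009630_co.Dn.Opt
import Pool.Agent.P.MP_009630_co.Dn.Conv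
import Pool.Agent.P.MP_009630_co.Dn.Relax
import Pool.Agent.P.MP_009630_co.Dn.Run1
import Pool.Agent.P.MP_009630_co.Dn.Run2
import Pool.Agent.P.MP_009630_co.Dn.Greedy
import Pool.Agent.P.MP_009630_co.Dn.Match
import Pool.Agent.P.MP_009630_co.Dn.Cov
import Pool.Agent.P.MP_009630_co.Dn.CovS
import Pool.Agent.P.MP_009630_co.Dn.Lat
import Pool.Agent.P.MP_009630_co.Dn.Lib
import Pool.Agent.P.MP_009630_co.Dn.Stage
import Pool.Agent.P.MP_009630_co.Dn.Group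
import Pool.Agent.P.MP_009630_co.Dn.Spec
import Pool.Agent.P.MP_009630_co.Dn.Build
import Pool.Agent.P.MP_009630_co.Dn.Main

set_option autoImplicit false

namespace Pool.Agent.Results.MP_009630_co.SmallDRange

open Pool.Agent.P.MP_009630_co.Dn

/-- Let `c ^ 2 = d + λ n`, `|d| + 1 ≤ t`, `n / t ≤ c ≤ n - n / t` and `t ^ 5000 ≤ n`; if `d = e ^ 2`
with `e ≥ 2` let also `gcd (n, c - e)` and `gcd (n, c + e)` be at least `t ^ 1700`. Then a
`(0,1)`-matrix of order `n` with line sums `c` and `A ^ 2 = d I + λ J` exists exactly when `d` is a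
square or `n` is odd. -/
theorem result (t : ℝ) (n : ℕ) (c d lam : ℤ) (hc : c ^ 2 = d + lam * n)
    (h1 : |(d : ℝ)| + 1 ≤ t) (h2 : (n : ℝ) ≤ t * c) (h3 : (n : ℝ) ≤ t * (n - c))
    (h4 : t ^ 5000 ≤ n)
    (h5 : ∀ e : ℤ, e ^ 2 = d → 2 ≤ |e| → t ^ 1700 ≤ (Int.gcd n (c - e) : ℝ)) :
    (∃ A : Matrix (Fin n) (Fin n) ℤ, (∀ i j, A i j = 0 ∨ A i j = 1) ∧
      (∀ i, ∑ j, A i j = c) ∧ (∀ j, ∑ i, A i j = c) ∧
      A ^ 2 = d • (1 : Matrix (Fin n) (Fin n) ℤ) + lam • Matrix.of (fun _ _ => (1 : ℤ))) ↔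
      (IsSquare d ∨ Odd n) := by
  have hB := block pz
  have hR := run1 (conv opt) (relax opt)
  have hM := main alg odd cl oddW cov covS lat
    (build (lib greedy fib) (spec (stage greedy (star hB)) (run2 hR) (runV opt hR))
      (group matching (norm hB)) glue row greedy (norm hB))
  have hD : ((d.natAbs : ℕ) : ℝ) = |(d : ℝ)| := by
    rw [Nat.cast_natAbs, Int.cast_abs]
  have hD0 : (0 : ℝ) ≤ |(d : ℝ)| := abs_nonneg _
  have hn1 : (1 : ℝ) ≤ n := (one_le_pow₀ (by linarith)).trans h4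
  have s2 : 2 ≤ t := by nlinarith
  have t1 : t ^ 14 ≤ (⌈t ^ 14⌉₊ : ℝ) := Nat.le_ceil _
  have t2 : (⌈t ^ 14⌉₊ : ℝ) < t ^ 14 + 1 := Nat.ceil_lt_add_one (by positivity)
  generalize ⌈t ^ 14⌉₊ = T at t1 t2
  have t3 : (2 : ℝ) ^ 14 ≤ t ^ 14 := pow_le_pow_left₀ (by norm_num) s2 14
  have t4 : (2 : ℝ) ^ 10 ≤ t ^ 10 := pow_le_pow_left₀ (by norm_num) s2 10
  have t5 : t ≤ T := (le_self_pow₀ (by linarith) (by norm_num)).trans t1
  have t6 : (T : ℝ) ^ 5 ≤ t ^ 71 :=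
    calc (T : ℝ) ^ 5 ≤ (17 / 16 * t ^ 14) ^ 5 := by gcongr; linarith
      _ = (17 / 16) ^ 5 * t ^ 70 := by ring
      _ ≤ t * t ^ 70 := by gcongr; linarith
      _ = t ^ 71 := by ring
  have hc0 : (0 : ℝ) ≤ c := by
    by_contra h
    nlinarith
  have hc1 : (0 : ℝ) ≤ n - c := by
    by_contra h
    nlinarith
  refine hM T n c d lam hc ?_ ?_ ?_ ?_ ?_ fun e he he2 => ⟨?_, ?_⟩
  · have : (1024 : ℝ) ≤ T := by linarith
    exact_mod_cast this
  · have : 64 * ((d.natAbs : ℕ) : ℝ) ^ 4 ≤ T :=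
      calc 64 * ((d.natAbs : ℕ) : ℝ) ^ 4 ≤ t ^ 10 * t ^ 4 := by
            gcongr <;> linarith
        _ = t ^ 14 := by ring
        _ ≤ T := t1
    exact_mod_cast this
  · have : (n : ℝ) ≤ T * c := h2.trans (by gcongr)
    exact_mod_cast this
  · have : (n : ℝ) ≤ T * (n - c) := h3.trans (by gcongr)
    exact_mod_cast this
  · have : (T : ℝ) ^ 340 ≤ n :=
      calc (T : ℝ) ^ 340 = (T ^ 5) ^ 68 := by rw [← pow_mul]
        _ ≤ (t ^ 71) ^ 68 := by gcongr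
        _ = t ^ 4828 := by rw [← pow_mul]
        _ ≤ t ^ 5000 := pow_le_pow_right₀ (by linarith) (by norm_num)
        _ ≤ n := h4
    exact_mod_cast this
  · have e4 : (4 : ℤ) ≤ |d| := by
      rw [← he, abs_pow]
      nlinarith
    have e5 : (4 : ℝ) ≤ |(d : ℝ)| := by exact_mod_cast e4
    have e6 : (5 : ℝ) ^ 6 ≤ t ^ 6 := pow_le_pow_left₀ (by norm_num) (by linarith) 6
    have : 9000 * ((d.natAbs : ℕ) : ℝ) ^ 8 ≤ T :=
      calc 9000 * ((d.natAbs : ℕ) : ℝ) ^ 8 ≤ t ^ 6 * t ^ 8 := by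
            gcongr <;> linarith
        _ = t ^ 14 := by ring
        _ ≤ T := t1
    exact_mod_cast this
  · have : (T : ℝ) ^ 115 ≤ (Int.gcd n (c - e) : ℝ) :=
      calc (T : ℝ) ^ 115 = (T ^ 5) ^ 23 := by rw [← pow_mul]
        _ ≤ (t ^ 71) ^ 23 := by gcongr
        _ = t ^ 1633 := by rw [← pow_mul]
        _ ≤ t ^ 1700 := pow_le_pow_right₀ (by linarith) (by norm_num)
        _ ≤ _ := h5 e he he2
    exact_mod_cast this

end Pool.Agent.Results.MP_009630_co.SmallDRange
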